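import Pool.Agent.Zk64.Sh.Big

/-!
# `[Alt(V)]` is not `a(V)` if `dim V ≥ 9`

The classes of `R` are handled through the characters, `R ⊆ ℤ[[z_1, …, z_d]]`, see the definitions
file. If `[Alt(V)] = a(V)` then the coefficient of `z_1 ⋯ z_9` in `a(V)` is the dimension of the
multilinear component of degree nine of `Alt(V)`. That component maps onto the multilinear component of
the free associative algebra, so its dimension is at least `9! = 362880`. The defining equations of
`a(V)` and `b(V)` give `336364`.

The relation `IsLambda X Φ`, that is `Φ = λ(X)`, is defined by Newton's identities. That it is the `λ`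
of the problem is also visible from the following, proved in the imported files: `λ(X + Y)` is the
product `λ(X) λ(Y)` (`LG`), `λ(z^α e^w) = 1 - z^α e^w` (`line_mem`), `λ(X)` exists for every `X`
without constant term (`exists_lambda`), and its coefficients up to a degree depend only on those of
`X` up to the same degree (`key2`).
-/

set_option autoImplicit false

namespace Pool.Agent.Results.MP_9e3efc_al.DegreeNine

open Pool.Agent.Zk64.Sh

/-- Let `V = k^d`, `d ≥ 9`. There is exactly one pair `a`, `b` which solves the equations defining
`a(V)`, `b(V)`; the coefficient of `z_1 ⋯ z_9` in `a` is `336364`; the dimension of the corresponding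
weight space of `Alt(V)` (all weight spaces are finite-dimensional) is at least `9! = 362880`. So
`[Alt(V)]` is not `a(V)`. -/
theorem result (k : Type*) [Field k] [CharZero k] (d : ℕ) (hd : 9 ≤ d) :
    ∃ a b : (Fin d → ℕ) → ℤ, Solves a b ∧ (∀ a' b', Solves a' b' → a' = a ∧ b' = b) ∧
      altChar k ≠ a ∧ a (nine d) = 336364 ∧ 362880 ≤ altChar k (nine d) ∧
      ∀ α : Fin d → ℕ, Module.Finite k (comp k α) := by
  obtain ⟨a, b, h⟩ := exists_solves d
  have h1 := solves_nine_gen hd h
  have h2 := le_altChar k hd
  refine ⟨a, b, h, fun a' b' h' => solves_unique h' h, fun h3 => ?_, h1, h2,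
    fun α => inferInstance⟩
  rw [h3, h1] at h2
  omega

end Pool.Agent.Results.MP_9e3efc_al.DegreeNine
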